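import Mathlib
import Pool.Agent.X171.EL.Stm

/-! EL_ABS of helper171's project EL (MP_32ff52_an), proof by helper190. -/

set_option autoImplicit false

namespace Pool.Agent.X190.EL

open Pool.Agent.X171.EL Set

variable {S : Type} [MetricSpace S]

/-- Lipschitz regularisation. -/
noncomputable def rg (t : ℝ) (f : S → ℝ) (u : S) : ℝ := ⨅ v, (f v + dist u v / t)

theorem rg_bdd {t : ℝ} (ht : 0 < t) {f : S → ℝ} (hf : ∀ u, 0 ≤ f u) (u : S) :
    BddBelow (Set.range fun v => f v + dist u v / t) :=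
  ⟨0, by rintro _ ⟨v, rfl⟩; exact add_nonneg (hf v) (div_nonneg dist_nonneg ht.le)⟩

theorem rg_le' {t : ℝ} (ht : 0 < t) {f : S → ℝ} (hf : ∀ u, 0 ≤ f u) (u v : S) :
    rg t f u ≤ f v + dist u v / t := ciInf_le (rg_bdd ht hf u) v

theorem rg_le {t : ℝ} (ht : 0 < t) {f : S → ℝ} (hf : ∀ u, 0 ≤ f u) (u : S) : rg t f u ≤ f u := by
  have := rg_le' ht hf u u
  simpa using this

theorem le_rg {t : ℝ} {f : S → ℝ} {u : S} {c : ℝ} (h : ∀ v, c ≤ f v + dist u v / t) : c ≤ rg t f u := by
  haveI : Nonempty S := ⟨u⟩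
  exact le_ciInf h

theorem rg_lip {t : ℝ} (ht : 0 < t) {f : S → ℝ} (hf : ∀ u, 0 ≤ f u) (u v : S) :
    |rg t f u - rg t f v| ≤ 1 / t * dist u v := by
  have key : ∀ u v, rg t f u - dist u v / t ≤ rg t f v := by
    intro u v
    refine le_rg fun w => ?_
    have h1 := rg_le' ht hf u w
    have h2 : dist u w / t ≤ (dist u v + dist v w) / t := by
      gcongr
      exact dist_triangle u v w
    rw [add_div] at h2
    linarith
  have h1 := key u v
  have h2 := key v u
  rw [dist_comm v u] at h2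
  have h3 : 1 / t * dist u v = dist u v / t := by ring
  rw [h3, abs_le]
  constructor <;> linarith

theorem rg_act {t : ℝ} {f : S → ℝ} {φ : S → S} (hi : Isometry φ) (hs : Function.Surjective φ) (u : S) :
    rg t f (φ u) = rg t (fun v => f (φ v)) u := by
  unfold rg
  rw [← hs.iInf_comp]
  congr 1
  funext v
  rw [hi.dist_eq]

theorem perm_exists {κ : Type} (f f' : ℕ → κ) (h : ∀ k, Nonempty ({x // f' x = k} ≃ {x // f x = k})) :
    ∃ π : Equiv.Perm ℕ, f ∘ π = f' := by
  refine ⟨(Equiv.sigmaFiberEquiv f').symm.trans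
    ((Equiv.sigmaCongrRight fun k => (h k).some).trans (Equiv.sigmaFiberEquiv f)), ?_⟩
  funext n
  exact ((h (f' n)).some ⟨n, rfl⟩).2

theorem perm_sets {K : Type} (c : ℕ → K) (j : K) (A B : Set ℕ) (hA : ∀ n ∈ A, c n = j) (hB : ∀ n ∈ B, c n = j)
    (iA : A.Infinite) (iB : B.Infinite) (iA' : {n | c n = j ∧ n ∉ A}.Infinite)
    (iB' : {n | c n = j ∧ n ∉ B}.Infinite) : ∃ π : Equiv.Perm ℕ, c ∘ π = c ∧ π ⁻¹' A = B := by
  obtain ⟨π, hπ⟩ := perm_exists (fun n => (c n, n ∈ A)) (fun n => (c n, n ∈ B)) (by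
    rintro ⟨i, p⟩
    by_cases hi : i = j
    · subst hi
      by_cases hp : p
      · have h1 : Infinite {x : ℕ // (c x, x ∈ B) = (i, p)} := by
          refine (iB.mono ?_).to_subtype
          intro n hn
          simp only [Prod.mk.injEq, Set.mem_setOf_eq]
          exact ⟨hB n hn, by simp [hn, hp]⟩
        have h2 : Infinite {x : ℕ // (c x, x ∈ A) = (i, p)} := by
          refine (iA.mono ?_).to_subtype
          intro n hn
          simp only [Prod.mk.injEq, Set.mem_setOf_eq]
          exact ⟨hA n hn, by simp [hn, hp]⟩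
        exact nonempty_equiv_of_countable
      · have h1 : Infinite {x : ℕ // (c x, x ∈ B) = (i, p)} := by
          refine (iB'.mono ?_).to_subtype
          intro n hn
          simp only [Prod.mk.injEq, Set.mem_setOf_eq]
          exact ⟨hn.1, by simp [hn.2, hp]⟩
        have h2 : Infinite {x : ℕ // (c x, x ∈ A) = (i, p)} := by
          refine (iA'.mono ?_).to_subtype
          intro n hn
          simp only [Prod.mk.injEq, Set.mem_setOf_eq]
          exact ⟨hn.1, by simp [hn.2, hp]⟩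
        exact nonempty_equiv_of_countable
    · have : ∀ x, ((c x, x ∈ B) = (i, p)) = ((c x, x ∈ A) = (i, p)) := by
        intro x
        simp only [Prod.mk.injEq, eq_iff_iff]
        constructor
        · rintro ⟨h1, h2⟩
          refine ⟨h1, ?_⟩
          have hb : x ∉ B := fun h => hi (h1 ▸ hB x h)
          have ha : x ∉ A := fun h => hi (h1 ▸ hA x h)
          simp only [hb, ha] at h2 ⊢
          exact h2
        · rintro ⟨h1, h2⟩
          refine ⟨h1, ?_⟩
          have hb : x ∉ B := fun h => hi (h1 ▸ hB x h)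
          have ha : x ∉ A := fun h => hi (h1 ▸ hA x h)
          simp only [hb, ha] at h2 ⊢
          exact h2
      exact ⟨Equiv.subtypeEquivRight fun x => by rw [this x]⟩)
  refine ⟨π, ?_, ?_⟩
  · funext n
    have := congrFun hπ n
    simp only [Function.comp, Prod.mk.injEq] at this
    exact this.1
  · ext n
    have := congrFun hπ n
    simp only [Function.comp, Prod.mk.injEq, eq_iff_iff] at this
    exact this.2

theorem split {K : Type} (c : ℕ → K) (hc : ∀ κ, {n | c n = κ}.Infinite) :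
    ∃ s : ℕ → Fin 3, ∀ κ r, {n | c n = κ ∧ s n = r}.Infinite := by
  have he : ∀ κ, Nonempty ({n // c n = κ} ≃ ℕ × Fin 3) := by
    intro κ
    haveI : Infinite {n // c n = κ} := (hc κ).to_subtype
    exact nonempty_equiv_of_countable
  have e : ∀ κ, ({n // c n = κ} ≃ ℕ × Fin 3) := fun κ => (he κ).some
  refine ⟨fun n => (e (c n) ⟨n, rfl⟩).2, fun κ r => ?_⟩
  have key : ∀ κ (x : ℕ) (h : c x = κ), (e (c x) ⟨x, rfl⟩) = e κ ⟨x, h⟩ := by
    rintro κ x rfl; rfl
  refine Set.infinite_of_injective_forall_mem (f := fun m : ℕ => (((e κ).symm (m, r)).1 : ℕ)) ?_ ?_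
  · intro m m' h
    have h1 : (e κ).symm (m, r) = (e κ).symm (m', r) := Subtype.ext h
    have h2 := (e κ).symm.injective h1
    simpa using h2
  · intro m
    refine ⟨((e κ).symm (m, r)).2, ?_⟩
    simp only
    rw [key κ _ ((e κ).symm (m, r)).2]
    simp

theorem BL.mono {g : S → ℝ} {a L a' L' : ℝ} (h : BL g a L) (ha : a ≤ a') (hL : L ≤ L') : BL g a' L' :=
  ⟨fun u => (h.1 u).trans ha, fun u v => (h.2 u v).trans (mul_le_mul_of_nonneg_right hL dist_nonneg)⟩

theorem BL.add {g f : S → ℝ} {a L a' L' : ℝ} (h : BL g a L) (h' : BL f a' L') : BL (g + f) (a + a') (L + L') := by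
  refine ⟨fun u => ?_, fun u v => ?_⟩
  · have := abs_add_le (g u) (f u)
    have h1 := h.1 u
    have h2 := h'.1 u
    simp only [Pi.add_apply]
    linarith
  · have h1 := h.2 u v
    have h2 := h'.2 u v
    have h3 := abs_add_le (g u - g v) (f u - f v)
    have h4 : (g + f) u - (g + f) v = (g u - g v) + (f u - f v) := by simp only [Pi.add_apply]; ring
    rw [h4, add_mul]
    linarith

theorem BL.prod {g e : S → ℝ} {a L ε M : ℝ} (ha : 0 ≤ a) (hε : 0 ≤ ε) (hL : 0 ≤ L) (hM : 0 ≤ M) (h : BL g a L)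
    (he : ∀ u, g u ≠ 0 → |e u| ≤ ε) (hl : ∀ u v, |e u - e v| ≤ M * dist u v) :
    BL (fun u => e u * g u) (ε * a) (ε * L + M * a) := by
  refine ⟨fun u => ?_, fun u v => ?_⟩
  · simp only
    by_cases hg : g u = 0
    · rw [hg]; simp; positivity
    · rw [abs_mul]
      exact mul_le_mul (he u hg) (h.1 u) (abs_nonneg _) hε
  · simp only
    have h2 := h.2 u v
    have hd : (0 : ℝ) ≤ dist u v := dist_nonneg
    by_cases hg : g u = 0
    · by_cases hg' : g v = 0
      · rw [hg, hg']; simp; positivity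
      · have h3 : e u * g u - e v * g v = e v * (g u - g v) := by rw [hg]; ring
        rw [h3, abs_mul]
        have h4 := mul_le_mul (he v hg') h2 (abs_nonneg _) hε
        have h5 : 0 ≤ M * a * dist u v := by positivity
        nlinarith
    · have h3 : e u * g u - e v * g v = e u * (g u - g v) + (e u - e v) * g v := by ring
      rw [h3]
      have h4 := mul_le_mul (he u hg) h2 (abs_nonneg _) hε
      have h5 := mul_le_mul (hl u v) (h.1 v) (abs_nonneg _) (by positivity)
      have h6 := abs_add_le (e u * (g u - g v)) ((e u - e v) * g v)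
      rw [abs_mul, abs_mul] at h6
      nlinarith

structure Hyp (act : Equiv.Perm ℕ → S → S) (ψ : Set ℕ → S → ℝ) (H : ℝ) (ν : (S → ℝ) → ℝ) : Prop where
  iso : ∀ π, Isometry (act π)
  sur : ∀ π, Function.Surjective (act π)
  H0 : 0 ≤ H
  p01 : ∀ A u, 0 ≤ ψ A u ∧ ψ A u ≤ 1
  padd : ∀ A B, Disjoint A B → ∀ u, ψ (A ∪ B) u = ψ A u + ψ B u
  phol : ∀ A u v, |ψ A u - ψ A v| ^ 2 ≤ H * dist u v
  peq : ∀ (π : Equiv.Perm ℕ) A u, ψ A (act π u) = ψ (π ⁻¹' A) u
  nadd : ∀ g h a L, BL g a L → BL h a L → ν (g + h) = ν g + ν h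
  ninv : ∀ π g a L, BL g a L → ν (g ∘ act π) = ν g

variable {act : Equiv.Perm ℕ → S → S} {ψ : Set ℕ → S → ℝ} {H : ℝ} {ν : (S → ℝ) → ℝ}

theorem Hyp.nadd' (hy : Hyp act ψ H ν) {g f : S → ℝ} {a L a' L' : ℝ} (h : BL g a L) (h' : BL f a' L') :
    ν (g + f) = ν g + ν f :=
  hy.nadd g f (max a a') (max L L') (BL.mono h (le_max_left _ _) (le_max_left _ _))
    (BL.mono h' (le_max_right _ _) (le_max_right _ _))

theorem Hyp.nzero (hy : Hyp act ψ H ν) : ν 0 = 0 := by
  have h0 : BL (0 : S → ℝ) 0 0 := ⟨fun u => by simp, fun u v => by simp⟩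
  have := hy.nadd' h0 h0
  rw [add_zero] at this
  linarith

theorem Hyp.nsum (hy : Hyp act ψ H ν) {K : Type} (f : K → S → ℝ) (a L : ℝ) (hf : ∀ k, BL (f k) a L) (s : Finset K) :
    BL (∑ k ∈ s, f k) (s.card * a) (s.card * L) ∧ ν (∑ k ∈ s, f k) = ∑ k ∈ s, ν (f k) := by
  classical
  induction s using Finset.induction_on with
  | empty => 
    simp only [Finset.sum_empty, Finset.card_empty, Nat.cast_zero, zero_mul]
    exact ⟨⟨fun u => by simp, fun u v => by simp⟩, hy.nzero⟩
  | insert k s hk ih =>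
    rw [Finset.sum_insert hk, Finset.sum_insert hk, Finset.card_insert_of_notMem hk]
    refine ⟨?_, ?_⟩
    · have := BL.add (hf k) ih.1
      refine BL.mono this ?_ ?_ <;> push_cast <;> linarith
    · rw [hy.nadd' (hf k) ih.1, ih.2]

/-- the regularised `ψ` -/
noncomputable def R (ψ : Set ℕ → S → ℝ) (t : ℝ) (A : Set ℕ) (u : S) : ℝ := rg t (ψ A) u

theorem Hyp.R_le (hy : Hyp act ψ H ν) {t : ℝ} (ht : 0 < t) (A : Set ℕ) (u : S) : R ψ t A u ≤ ψ A u :=
  rg_le ht (fun u => (hy.p01 A u).1) u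

theorem Hyp.R_nonneg (hy : Hyp act ψ H ν) {t : ℝ} (ht : 0 < t) (A : Set ℕ) (u : S) : 0 ≤ R ψ t A u :=
  le_rg fun v => add_nonneg (hy.p01 A v).1 (div_nonneg dist_nonneg ht.le)

theorem Hyp.le_R (hy : Hyp act ψ H ν) {t : ℝ} (ht : 0 < t) (A : Set ℕ) (u : S) :
    ψ A u - H * t ≤ R ψ t A u := by
  refine le_rg fun v => ?_
  have h1 := hy.phol A u v
  have h2 : |ψ A u - ψ A v| ≤ H * t + dist u v / t := by
    have h0 := hy.H0
    have hd : 0 ≤ dist u v := dist_nonneg
    refine abs_le_of_sq_le_sq' ?_ (by positivity) |>.2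
    rw [sq_abs] at h1 ⊢
    have h3 : (H * t + dist u v / t) ^ 2 = (H * t - dist u v / t) ^ 2 + 4 * (H * dist u v) := by
      field_simp
      ring
    rw [h3]
    have h4 : 0 ≤ H * dist u v := by positivity
    nlinarith [sq_nonneg (H * t - dist u v / t)]
  have h5 := le_abs_self (ψ A u - ψ A v)
  linarith

theorem Hyp.R_lip (hy : Hyp act ψ H ν) {t : ℝ} (ht : 0 < t) (A : Set ℕ) (u v : S) :
    |R ψ t A u - R ψ t A v| ≤ 1 / t * dist u v := rg_lip ht (fun u => (hy.p01 A u).1) u v

theorem Hyp.R_eq (hy : Hyp act ψ H ν) {t : ℝ} (π : Equiv.Perm ℕ) (A : Set ℕ) (u : S) :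
    R ψ t A (act π u) = R ψ t (π ⁻¹' A) u := by
  unfold R
  rw [rg_act (hy.iso π) (hy.sur π)]
  congr 1
  funext v
  exact hy.peq π A v

/-- invariance under colour preserving permutations -/
def Inv {K : Type} (act : Equiv.Perm ℕ → S → S) (c : ℕ → K) (g : S → ℝ) : Prop :=
  ∀ π : Equiv.Perm ℕ, c ∘ π = c → g ∘ act π = g

def Bnd (act : Equiv.Perm ℕ → S → S) (ψ : Set ℕ → S → ℝ) (ν : (S → ℝ) → ℝ) (K : Type) (C α β : ℝ) : Prop :=
  ∀ c : ℕ → K, (∀ κ, {n | c n = κ}.Infinite) → ∀ (g : S → ℝ) (a L : ℝ), 0 ≤ a → 0 ≤ L → BL g a L →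
    Inv act c g → (∀ u, g u ≠ 0 → ψ univ u = 1) → |ν g| ≤ C * (α * L + β * a)

/-- the defect -/
noncomputable def dd (ψ : Set ℕ → S → ℝ) (t : ℝ) (A B : Set ℕ) (u : S) : ℝ :=
  R ψ t (A ∪ B) u - R ψ t A u - R ψ t B u

theorem Hyp.dd_le (hy : Hyp act ψ H ν) {t : ℝ} (ht : 0 < t) (A B : Set ℕ) (hAB : Disjoint A B) (u : S) :
    |dd ψ t A B u| ≤ 3 * H * t := by
  have h1 := hy.R_le ht (A ∪ B) u
  have h2 := hy.R_le ht A u
  have h3 := hy.R_le ht B u
  have h4 := hy.le_R ht (A ∪ B) u
  have h5 := hy.le_R ht A u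
  have h6 := hy.le_R ht B u
  have h7 := hy.padd A B hAB u
  have h8 : 0 ≤ H * t := mul_nonneg hy.H0 ht.le
  unfold dd
  rw [abs_le]
  constructor <;> linarith

theorem Hyp.dd_lip (hy : Hyp act ψ H ν) {t : ℝ} (ht : 0 < t) (A B : Set ℕ) (u v : S) :
    |dd ψ t A B u - dd ψ t A B v| ≤ 3 / t * dist u v := by
  have h1 := abs_le.mp (hy.R_lip ht (A ∪ B) u v)
  have h2 := abs_le.mp (hy.R_lip ht A u v)
  have h3 := abs_le.mp (hy.R_lip ht B u v)
  have h4 : 3 / t * dist u v = 3 * (1 / t * dist u v) := by ring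
  rw [h4]
  unfold dd
  rw [abs_le]
  constructor <;> linarith

theorem Hyp.psum (hy : Hyp act ψ H ν) {K : Type} (c : ℕ → K) (u : S) (s : Finset K) :
    ψ {n | c n ∈ s} u = ∑ κ ∈ s, ψ {n | c n = κ} u := by
  classical
  induction s using Finset.induction_on with
  | empty =>
    have h := hy.padd ∅ ∅ (by simp) u
    simp only [Set.union_self] at h
    have h1 : {n | c n ∈ (∅ : Finset K)} = (∅ : Set ℕ) := by ext; simp
    rw [h1, Finset.sum_empty]
    linarith
  | insert k s hk ih =>
    rw [Finset.sum_insert hk, ← ih, ← hy.padd]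
    · congr 1
      ext n
      simp
    · rw [Set.disjoint_left]
      intro n hn hn'
      simp only [Set.mem_setOf_eq] at hn hn'
      exact hk (hn ▸ hn')

theorem Hyp.step (hy : Hyp act ψ H ν) (K : Type) [Fintype K] (C α β t : ℝ) (hC : 0 ≤ C) (hα : 0 ≤ α) (hβ : 0 ≤ β)
    (ht : 0 < t) (hb : Bnd act ψ ν (K × Fin 3) C α β) :
    Bnd act ψ ν K (C * (10 * Fintype.card K * (H + 1))) (α * t) (α / t + β * t) := by
  classical
  intro c hc g a L ha hL hg hgi hgs
  obtain ⟨s, hs⟩ := split c hc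
  have hH := hy.H0
  set Q : ℝ := C * ((H + 1) * (α * t * L + (α / t + β * t) * a)) with hQ
  have hQ0 : 0 ≤ Q := by positivity
  -- the finer colouring
  have hfine : ∀ κ : K × Fin 3, {n | (c n, s n) = κ}.Infinite := by
    rintro ⟨κ, r⟩
    have := hs κ r
    simpa only [Prod.mk.injEq] using this
  have hcs : ∀ π : Equiv.Perm ℕ, (fun n => (c n, s n)) ∘ π = (fun n => (c n, s n)) →
      c ∘ π = c ∧ ∀ n, s (π n) = s n := by
    intro π hπ
    refine ⟨?_, ?_⟩
    · funext n
      have := congrFun hπ n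
      simp only [Function.comp, Prod.mk.injEq] at this
      exact this.1
    · intro n
      have := congrFun hπ n
      simp only [Function.comp, Prod.mk.injEq] at this
      exact this.2
  -- bound for products with small functions
  have hsmall : ∀ (e : S → ℝ) (N : ℝ), 0 ≤ N → (∀ u, g u ≠ 0 → |e u| ≤ N * H * t) →
      (∀ u v, |e u - e v| ≤ N / t * dist u v) →
      (∀ π : Equiv.Perm ℕ, (fun n => (c n, s n)) ∘ π = (fun n => (c n, s n)) → ∀ u, e (act π u) = e u) →
      |ν (fun u => e u * g u)| ≤ N * Q := by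
    intro e N hN he hl hi
    have h1 := BL.prod ha (by positivity) hL (by positivity) hg he hl
    have h2 := hb (fun n => (c n, s n)) hfine (fun u => e u * g u) _ _ (by positivity) (by positivity) h1 (by
      intro π hπ
      funext u
      have h3 := congrFun (hgi π (hcs π hπ).1) u
      simp only [Function.comp] at h3 ⊢
      rw [hi π hπ u, h3]) (by
      intro u hu
      exact hgs u (fun h => hu (by simp [h])))
    refine h2.trans ?_
    have h4 : α * (N * H * t * L + N / t * a) + β * (N * H * t * a) ≤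
        N * ((H + 1) * (α * t * L + (α / t + β * t) * a)) := by
      have e1 : N * ((H + 1) * (α * t * L + (α / t + β * t) * a)) -
        (α * (N * H * t * L + N / t * a) + β * (N * H * t * a)) =
          N * (α * t * L) + N * (H * (α / t) * a) + N * (β * t * a) := by
        field_simp
        ring
      have e2 : 0 ≤ N * (α * t * L) + N * (H * (α / t) * a) + N * (β * t * a) := by positivity
      linarith
    have h5 := mul_le_mul_of_nonneg_left h4 hC
    rw [hQ]
    linarith
  -- products with R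
  have hR : ∀ A : Set ℕ, BL (fun u => R ψ t A u * g u) (1 * a) (1 * L + 1 / t * a) := by
    intro A
    refine BL.prod ha zero_le_one hL (by positivity) hg ?_ (hy.R_lip ht A)
    intro u _
    rw [abs_of_nonneg (hy.R_nonneg ht A u)]
    exact (hy.R_le ht A u).trans (hy.p01 A u).2
  -- equality of the values
  have hval : ∀ (κ : K) (A B : Set ℕ), (∀ n ∈ A, c n = κ) → (∀ n ∈ B, c n = κ) → A.Infinite → B.Infinite →
      {n | c n = κ ∧ n ∉ A}.Infinite → {n | c n = κ ∧ n ∉ B}.Infinite →
      ν (fun u => R ψ t A u * g u) = ν (fun u => R ψ t B u * g u) := by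
    intro κ A B hA hB iA iB iA' iB'
    obtain ⟨π, hπ, hAB⟩ := perm_sets c κ A B hA hB iA iB iA' iB'
    rw [← hy.ninv π _ _ _ (hR A)]
    congr 1
    funext u
    have h3 := congrFun (hgi π hπ) u
    simp only [Function.comp] at h3 ⊢
    rw [hy.R_eq π A u, hAB, h3]
  -- the splitting identity
  have hadd : ∀ A B : Set ℕ, Disjoint A B → ν (fun u => R ψ t (A ∪ B) u * g u) =
      ν (fun u => R ψ t A u * g u) + ν (fun u => R ψ t B u * g u) + ν (fun u => dd ψ t A B u * g u) := by
    intro A B hAB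
    have h1 : BL (fun u => dd ψ t A B u * g u) _ _ := BL.prod (ε := 3 * H * t) (M := 3 / t) ha (by positivity) hL
      (by positivity) hg (fun u _ => hy.dd_le ht A B hAB u) (hy.dd_lip ht A B)
    rw [← hy.nadd' (hR A) (hR B), ← hy.nadd' (BL.add (hR A) (hR B)) h1]
    congr 1
    funext u
    simp only [Pi.add_apply, dd]
    ring
  have hdd : ∀ A B : Set ℕ, Disjoint A B →
      (∀ π : Equiv.Perm ℕ, (fun n => (c n, s n)) ∘ π = (fun n => (c n, s n)) → π ⁻¹' A = A ∧ π ⁻¹' B = B) →
      |ν (fun u => dd ψ t A B u * g u)| ≤ 3 * Q := by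
    intro A B hAB hi
    refine hsmall _ 3 (by norm_num) (fun u _ => hy.dd_le ht A B hAB u) (hy.dd_lip ht A B) ?_
    intro π hπ u
    obtain ⟨h1, h2⟩ := hi π hπ
    unfold dd
    rw [hy.R_eq, hy.R_eq, hy.R_eq, Set.preimage_union, h1, h2]
  -- value of a class
  have hclass : ∀ κ : K, |ν (fun u => R ψ t {n | c n = κ} u * g u)| ≤ 9 * Q := by
    intro κ
    set A : Set ℕ := {n | c n = κ ∧ s n = 0} with hA
    set B : Set ℕ := {n | c n = κ ∧ s n = 1} with hB
    set B' : Set ℕ := {n | c n = κ ∧ s n ≠ 0} with hB'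
    have iA : A.Infinite := hs κ 0
    have iB : B.Infinite := hs κ 1
    have iB' : B'.Infinite := iB.mono (fun n hn => ⟨hn.1, by rw [hn.2]; decide⟩)
    have iAB : (A ∪ B).Infinite := iA.mono Set.subset_union_left
    have cA : {n | c n = κ ∧ n ∉ A}.Infinite := iB.mono (fun n hn => ⟨hn.1, fun h => by
      have h1 := hn.2; have h2 := h.2; rw [h1] at h2; revert h2; decide⟩)
    have cB : {n | c n = κ ∧ n ∉ B}.Infinite := iA.mono (fun n hn => ⟨hn.1, fun h => by
      have h1 := hn.2; have h2 := h.2; rw [h1] at h2; revert h2; decide⟩)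
    have cB' : {n | c n = κ ∧ n ∉ B'}.Infinite := iA.mono (fun n hn => ⟨hn.1, fun h => h.2 hn.2⟩)
    have cAB : {n | c n = κ ∧ n ∉ A ∪ B}.Infinite := (hs κ 2).mono (fun n hn => ⟨hn.1, fun h => by
      have h1 := hn.2
      rcases h with h | h
      · have h2 := h.2; rw [h1] at h2; revert h2; decide
      · have h2 := h.2; rw [h1] at h2; revert h2; decide⟩)
    have v1 := hval κ A B (fun n h => h.1) (fun n h => h.1) iA iB cA cB
    have v2 := hval κ A (A ∪ B) (fun n h => h.1) (fun n h => h.elim (fun h => h.1) (fun h => h.1)) iA iAB cA cAB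
    have v3 := hval κ A B' (fun n h => h.1) (fun n h => h.1) iA iB' cA cB'
    have dAB : Disjoint A B := by
      rw [Set.disjoint_left]
      intro n h h'
      have h1 := h.2; have h2 := h'.2; rw [h1] at h2; revert h2; decide
    have dAB' : Disjoint A B' := by
      rw [Set.disjoint_left]
      intro n h h'
      exact h'.2 h.2
    have e1 := hadd A B dAB
    have e2 := hadd A B' dAB'
    have e3 : A ∪ B' = {n | c n = κ} := by
      ext n
      constructor
      · rintro (h | h)
        · exact h.1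
        · exact h.1
      · intro h
        by_cases h0 : s n = 0
        · exact Or.inl ⟨h, h0⟩
        · exact Or.inr ⟨h, h0⟩
    have pA : ∀ π : Equiv.Perm ℕ, (fun n => (c n, s n)) ∘ π = (fun n => (c n, s n)) → π ⁻¹' A = A := by
      intro π hπ
      obtain ⟨h1, h2⟩ := hcs π hπ
      ext n
      have h3 := congrFun h1 n
      simp only [Function.comp] at h3
      show (c (π n) = κ ∧ s (π n) = 0) ↔ (c n = κ ∧ s n = 0)
      rw [h3, h2]
    have pB : ∀ π : Equiv.Perm ℕ, (fun n => (c n, s n)) ∘ π = (fun n => (c n, s n)) → π ⁻¹' B = B := by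
      intro π hπ
      obtain ⟨h1, h2⟩ := hcs π hπ
      ext n
      have h3 := congrFun h1 n
      simp only [Function.comp] at h3
      show (c (π n) = κ ∧ s (π n) = 1) ↔ (c n = κ ∧ s n = 1)
      rw [h3, h2]
    have pB' : ∀ π : Equiv.Perm ℕ, (fun n => (c n, s n)) ∘ π = (fun n => (c n, s n)) → π ⁻¹' B' = B' := by
      intro π hπ
      obtain ⟨h1, h2⟩ := hcs π hπ
      ext n
      have h3 := congrFun h1 n
      simp only [Function.comp] at h3
      show (c (π n) = κ ∧ s (π n) ≠ 0) ↔ (c n = κ ∧ s n ≠ 0)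
      rw [h3, h2]
    have b1 := abs_le.mp (hdd A B dAB (fun π hπ => ⟨pA π hπ, pB π hπ⟩))
    have b2 := abs_le.mp (hdd A B' dAB' (fun π hπ => ⟨pA π hπ, pB' π hπ⟩))
    rw [e3] at e2
    rw [abs_le]
    constructor <;> linarith
  -- the rest
  have hrest : |ν (fun u => (1 - ∑ κ, R ψ t {n | c n = κ} u) * g u)| ≤ Fintype.card K * Q := by
    refine hsmall _ _ (by positivity) ?_ ?_ ?_
    · intro u hu
      have h1 := hy.psum c u Finset.univ
      have h2 : {n | c n ∈ (Finset.univ : Finset K)} = (univ : Set ℕ) := by ext; simp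
      rw [h2, hgs u hu] at h1
      rw [h1, ← Finset.sum_sub_distrib]
      refine (Finset.abs_sum_le_sum_abs _ _).trans ?_
      have h3 : ∀ κ ∈ (Finset.univ : Finset K), |ψ {n | c n = κ} u - R ψ t {n | c n = κ} u| ≤ H * t := by
        intro κ _
        have h4 := hy.R_le ht {n | c n = κ} u
        have h5 := hy.le_R ht {n | c n = κ} u
        rw [abs_le]
        constructor
        · have : 0 ≤ H * t := by positivity
          linarith
        · linarith
      refine (Finset.sum_le_sum h3).trans ?_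
      rw [Finset.sum_const, Finset.card_univ, nsmul_eq_mul]
      exact le_of_eq (by ring)
    · intro u v
      have h1 : (1 - ∑ κ, R ψ t {n | c n = κ} u) - (1 - ∑ κ, R ψ t {n | c n = κ} v) =
          ∑ κ, (R ψ t {n | c n = κ} v - R ψ t {n | c n = κ} u) := by
        rw [Finset.sum_sub_distrib]; ring
      rw [h1]
      refine (Finset.abs_sum_le_sum_abs _ _).trans ?_
      refine (Finset.sum_le_sum (fun κ _ => hy.R_lip ht {n | c n = κ} v u)).trans ?_
      rw [Finset.sum_const, Finset.card_univ, nsmul_eq_mul, dist_comm]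
      exact le_of_eq (by ring)
    · intro π hπ u
      congr 1
      refine Finset.sum_congr rfl fun κ _ => ?_
      rw [hy.R_eq]
      congr 1
      ext n
      have h3 := congrFun (hcs π hπ).1 n
      simp only [Function.comp] at h3
      show c (π n) = κ ↔ c n = κ
      rw [h3]
  -- assembly
  have hs1 := hy.nsum (fun κ : K => fun u => R ψ t {n | c n = κ} u * g u) _ _ (fun κ => hR _) Finset.univ
  have hg' : ν g = ∑ κ : K, ν (fun u => R ψ t {n | c n = κ} u * g u) +
      ν (fun u => (1 - ∑ κ, R ψ t {n | c n = κ} u) * g u) := by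
    have hBL : BL (fun u => (1 - ∑ κ, R ψ t {n | c n = κ} u) * g u) _ _ :=
      BL.prod (ε := Fintype.card K * H * t) (M := Fintype.card K / t) ha (by positivity) hL (by positivity) hg ?_ ?_
    · rw [← hs1.2, ← hy.nadd' hs1.1 hBL]
      congr 1
      funext u
      simp only [Pi.add_apply, Finset.sum_apply]
      rw [← Finset.sum_mul]
      ring
    · intro u hu
      have h1 := hy.psum c u Finset.univ
      have h2 : {n | c n ∈ (Finset.univ : Finset K)} = (univ : Set ℕ) := by ext; simp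
      rw [h2, hgs u hu] at h1
      rw [h1, ← Finset.sum_sub_distrib]
      refine (Finset.abs_sum_le_sum_abs _ _).trans ?_
      have h3 : ∀ κ ∈ (Finset.univ : Finset K), |ψ {n | c n = κ} u - R ψ t {n | c n = κ} u| ≤ H * t := by
        intro κ _
        have h4 := hy.R_le ht {n | c n = κ} u
        have h5 := hy.le_R ht {n | c n = κ} u
        rw [abs_le]
        constructor
        · have : 0 ≤ H * t := by positivity
          linarith
        · linarith
      refine (Finset.sum_le_sum h3).trans ?_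
      rw [Finset.sum_const, Finset.card_univ, nsmul_eq_mul]
      exact le_of_eq (by ring)
    · intro u v
      have h1 : (1 - ∑ κ, R ψ t {n | c n = κ} u) - (1 - ∑ κ, R ψ t {n | c n = κ} v) =
          ∑ κ, (R ψ t {n | c n = κ} v - R ψ t {n | c n = κ} u) := by
        rw [Finset.sum_sub_distrib]; ring
      rw [h1]
      refine (Finset.abs_sum_le_sum_abs _ _).trans ?_
      refine (Finset.sum_le_sum (fun κ _ => hy.R_lip ht {n | c n = κ} v u)).trans ?_
      rw [Finset.sum_const, Finset.card_univ, nsmul_eq_mul, dist_comm]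
      exact le_of_eq (by ring)
  have hfin : |∑ κ : K, ν (fun u => R ψ t {n | c n = κ} u * g u)| ≤ Fintype.card K * (9 * Q) := by
    refine (Finset.abs_sum_le_sum_abs _ _).trans ?_
    refine (Finset.sum_le_sum (fun κ _ => hclass κ)).trans ?_
    rw [Finset.sum_const, Finset.card_univ, nsmul_eq_mul]
  rw [hg']
  refine (abs_add_le _ _).trans ?_
  have : C * (10 * Fintype.card K * (H + 1)) * (α * t * L + (α / t + β * t) * a) =
      Fintype.card K * (9 * Q) + Fintype.card K * Q := by
    rw [hQ]; ring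
  rw [this]
  exact add_le_add hfin hrest

theorem t_ABS : S_ABS := by
  intro S _ act hiso hsur ψ H h01 hadd hhol heq ν C hnadd hnb hninv g a L hg hgi hgs
  set H' : ℝ := max H 0 with hH'
  set C' : ℝ := max C 0 with hC'
  set a' : ℝ := max a 0 with ha'
  set L' : ℝ := max L 0 with hL'
  have ha0 : 0 ≤ a' := le_max_right _ _
  have hL0 : 0 ≤ L' := le_max_right _ _
  have hC0 : 0 ≤ C' := le_max_right _ _
  have hH0 : 0 ≤ H' := le_max_right _ _
  have hy : Hyp act ψ H' ν :=
    { iso := hiso, sur := hsur, H0 := hH0, p01 := h01, padd := hadd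
      phol := fun A u v => (hhol A u v).trans (mul_le_mul_of_nonneg_right (le_max_left _ _) dist_nonneg)
      peq := heq, nadd := hnadd, ninv := hninv }
  have hb0 : ∀ K : Type, Bnd act ψ ν K C' 1 1 := by
    intro K c _ g a L ha hL hg _ _
    have h1 := hnb g a L hg
    have h2 : C * (a + L) ≤ C' * (a + L) := mul_le_mul_of_nonneg_right (le_max_left _ _) (by positivity)
    linarith
  have hg' : BL g a' L' := BL.mono hg (le_max_left _ _) (le_max_left _ _)
  obtain ⟨D, hD0, hD⟩ : ∃ D : ℝ, 0 ≤ D ∧ ∀ t : ℝ, 0 < t → t ≤ 1 → |ν g| ≤ D * (t * (L' + 4 * a')) := by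
    refine ⟨C' * (10 * Fintype.card ((Unit × Fin 3) × Fin 3) * (H' + 1)) *
      (10 * Fintype.card (Unit × Fin 3) * (H' + 1)) * (10 * Fintype.card Unit * (H' + 1)), by positivity, ?_⟩
    intro t ht ht1
    have s1 := hy.step ((Unit × Fin 3) × Fin 3) C' 1 1 t hC0 zero_le_one zero_le_one ht (hb0 _)
    have s2 := hy.step (Unit × Fin 3) _ _ _ t (by positivity) (by positivity) (by positivity) ht s1
    have s3 := hy.step Unit _ _ _ t (by positivity) (by positivity) (by positivity) ht s2
    have s4 := s3 (fun _ => ()) (by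
      intro κ
      have : {n : ℕ | (() : Unit) = κ} = univ := by ext; simp
      rw [this]
      exact Set.infinite_univ) g a' L' ha0 hL0 hg' (fun π _ => hgi π) hgs
    refine s4.trans ?_
    refine mul_le_mul_of_nonneg_left ?_ (by positivity)
    have e1 : 1 * t * t / t + (1 * t / t + (1 / t + 1 * t) * t) * t = 3 * t + t ^ 3 := by
      field_simp
      ring
    rw [e1]
    have e2 : t ^ 3 ≤ t := by
      have : t ^ 3 ≤ t ^ 1 := pow_le_pow_of_le_one ht.le ht1 (by norm_num)
      simpa using this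
    nlinarith [mul_nonneg (sub_nonneg.mpr e2) hL0, mul_nonneg (sub_nonneg.mpr e2) ha0]
  by_contra hne
  have hpos : 0 < |ν g| := abs_pos.mpr hne
  set W : ℝ := D * (L' + 4 * a') with hW
  have hW0 : 0 ≤ W := by positivity
  have ht0 : 0 < min 1 (|ν g| / (2 * (W + 1))) := by positivity
  have := hD _ ht0 (min_le_left _ _)
  have h2 : D * (min 1 (|ν g| / (2 * (W + 1))) * (L' + 4 * a')) = min 1 (|ν g| / (2 * (W + 1))) * W := by
    rw [hW]; ring
  rw [h2] at this
  have h3 : min 1 (|ν g| / (2 * (W + 1))) * W ≤ |ν g| / (2 * (W + 1)) * W :=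
    mul_le_mul_of_nonneg_right (min_le_right _ _) hW0
  have h4 : |ν g| / (2 * (W + 1)) * W ≤ |ν g| / 2 := by
    rw [div_mul_eq_mul_div, div_le_div_iff₀ (by positivity) (by norm_num)]
    nlinarith
  linarith

end Pool.Agent.X190.EL
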